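import Mathlib

namespace Pool.Agent.Results.MP_d4e795_co.Full

open Finset Filter Topology

/-- `X 0, …, X (d-1)` is a `d`-partition of `Fin n`: nonempty, pairwise disjoint, covering. -/
def IsPartition {d n : ℕ} (X : Fin d → Finset (Fin n)) : Prop :=
  (∀ i, (X i).Nonempty) ∧ (∀ i j, i ≠ j → Disjoint (X i) (X j)) ∧ ∀ v, ∃ i, v ∈ X i

/-- A family of `d`-element sets such that each `d`-partition has a member meeting every part. -/
def IsBlocking (d n : ℕ) (E : Finset (Finset (Fin n))) : Prop :=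
  (∀ e ∈ E, e.card = d) ∧
    ∀ X : Fin d → Finset (Fin n), IsPartition X → ∃ e ∈ E, ∀ i, ∃ x ∈ e, x ∈ X i

/-- `φ_d(n)`: the least size of a `d`-blocking set on `n` points. -/
noncomputable def phi (d n : ℕ) : ℕ := sInf {m | ∃ E, IsBlocking d n E ∧ E.card = m}

lemma blocking_iff (d n : ℕ) (E : Finset (Finset (Fin n))) :
    IsBlocking d n E ↔ (∀ e ∈ E, e.card = d) ∧
      ∀ χ : Fin n → Fin d, Function.Surjective χ → ∃ e ∈ E, ∀ i, ∃ x ∈ e, χ x = i := by
  classical
  refine and_congr_right fun _ => ⟨fun h χ hχ => ?_, fun h X hX => ?_⟩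
  · obtain ⟨e, he, h1⟩ := h (fun i => univ.filter fun v => χ v = i) ⟨fun i => by
      obtain ⟨v, hv⟩ := hχ i
      exact ⟨v, by simp [hv]⟩, fun i j hij => by
      rw [disjoint_filter]
      intro v _ h1 h2
      exact hij (h1.symm.trans h2), fun v => ⟨χ v, by simp⟩⟩
    refine ⟨e, he, fun i => ?_⟩
    obtain ⟨x, hx, hx'⟩ := h1 i
    exact ⟨x, hx, (mem_filter.mp hx').2⟩
  · choose χ hχ using hX.2.2
    have huniq : ∀ v i, v ∈ X i → χ v = i := by
      intro v i hv
      by_contra hne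
      exact disjoint_left.mp (hX.2.1 _ _ hne) (hχ v) hv
    obtain ⟨e, he, h1⟩ := h χ fun i => by
      obtain ⟨v, hv⟩ := hX.1 i
      exact ⟨v, huniq v i hv⟩
    refine ⟨e, he, fun i => ?_⟩
    obtain ⟨x, hx, hx'⟩ := h1 i
    exact ⟨x, hx, hx' ▸ hχ x⟩

lemma card_eq_of_hits {d n : ℕ} (χ : Fin n → Fin d) (e : Finset (Fin n)) (h1 : e.card ≤ d)
    (h2 : ∀ i, ∃ x ∈ e, χ x = i) : e.card = d := by
  refine le_antisymm h1 ?_
  have : (univ : Finset (Fin d)) ⊆ e.image χ := fun i _ => by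
    obtain ⟨x, hx, hx'⟩ := h2 i
    exact mem_image.mpr ⟨x, hx, hx'⟩
  have h3 := (card_le_card this).trans card_image_le
  simpa using h3

lemma phi_le_of {d n : ℕ} (E : Finset (Finset (Fin n)))
    (h : ∀ χ : Fin n → Fin d, Function.Surjective χ →
      ∃ e ∈ E, e.card ≤ d ∧ ∀ i, ∃ x ∈ e, χ x = i) :
    IsBlocking d n (E.filter fun e => e.card = d) ∧ phi d n ≤ E.card := by
  have hB : IsBlocking d n (E.filter fun e => e.card = d) := by
    rw [blocking_iff]
    refine ⟨fun e he => (mem_filter.mp he).2, fun χ hχ => ?_⟩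
    obtain ⟨e, he, h1, h2⟩ := h χ hχ
    exact ⟨e, mem_filter.mpr ⟨he, card_eq_of_hits χ e h1 h2⟩, h2⟩
  have h1 : phi d n ≤ (E.filter fun e => e.card = d).card := Nat.sInf_le ⟨_, hB, rfl⟩
  exact ⟨hB, h1.trans (card_filter_le _ _)⟩

lemma exists_opt (d n : ℕ) : ∃ E, IsBlocking d n E ∧ E.card = phi d n := by
  have hne : {m | ∃ E, IsBlocking d n E ∧ E.card = m}.Nonempty := by
    refine ⟨_, _, (phi_le_of (d := d) (n := n) univ fun χ hχ => ?_).1, rfl⟩
    choose s hs using hχ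
    refine ⟨univ.image s, mem_univ _, card_image_le.trans (by simp), fun i => ?_⟩
    exact ⟨s i, mem_image_of_mem _ (mem_univ _), hs i⟩
  exact Nat.sInf_mem hne

lemma phi_le_pow (t n : ℕ) (hn : 0 < n) : phi (t + 1) n ≤ n ^ t := by
  let z : Fin n := ⟨0, hn⟩
  let E : Finset (Finset (Fin n)) :=
    (univ : Finset (Fin t → Fin n)).image fun y => insert z (univ.image y)
  refine (phi_le_of E fun χ hχ => ?_).2.trans (card_image_le.trans (by simp))
  choose s hs using hχ
  refine ⟨_, mem_image_of_mem _ (mem_univ fun j => s ((χ z).succAbove j)), ?_, fun i => ?_⟩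
  · refine (card_insert_le _ _).trans ?_
    have : (univ.image fun j : Fin t => s ((χ z).succAbove j)).card ≤ t :=
      card_image_le.trans (by simp)
    omega
  · by_cases hi : i = χ z
    · exact ⟨z, mem_insert_self _ _, hi.symm⟩
    · obtain ⟨j, rfl⟩ := Fin.exists_succAbove_eq hi
      exact ⟨_, mem_insert_of_mem (mem_image_of_mem _ (mem_univ j)), hs _⟩

lemma interp {R : Type*} [CommRing R] {t : ℕ} (v w : Fin t → R)
    (h : ∀ i j, i ≠ j → IsUnit (v i - v j)) :
    ∃ c : Fin t → R, ∀ i, ∑ j : Fin t, v i ^ (j : ℕ) * c j = w i := by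
  have h1 : IsUnit (Matrix.vandermonde v).det := by
    rw [Matrix.det_vandermonde]
    refine IsUnit.prod_iff.mpr fun i _ => IsUnit.prod_iff.mpr fun j hj => h _ _ ?_
    exact (mem_Ioi.mp hj).ne'
  have h2 := Matrix.mulVec_surjective_iff_isUnit.mpr ((Matrix.isUnit_iff_isUnit_det _).mpr h1)
  obtain ⟨c, hc⟩ := h2 w
  refine ⟨c, fun i => ?_⟩
  rw [← hc]
  simp [Matrix.mulVec, dotProduct, Matrix.vandermonde_apply]

lemma ineq (u k q N : ℕ) (hq : 0 < q) (hN : 0 < N) (hNq : N ≤ k * q)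
    (hu : ∀ i j : Fin k, i ≠ j → IsUnit (((i : ℕ) : ZMod q) - ((j : ℕ) : ZMod q))) :
    phi (u + 3) N ≤ q ^ (u + 2) * phi (u + 3) (k + 1) + N * q * N ^ u := by
  classical
  have : NeZero q := ⟨hq.ne'⟩
  obtain ⟨σ⟩ : Nonempty (Fin N ↪ Fin k × ZMod q) := by
    apply Function.Embedding.nonempty_of_card_le
    simpa [ZMod.card] using hNq
  let z : Fin N := ⟨0, hN⟩
  have : Nonempty (Fin N) := ⟨z⟩
  let π : Fin k × ZMod q → Fin N := Function.invFun σ
  have hπ : ∀ x, π (σ x) = x := Function.leftInverse_invFun σ.injective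
  obtain ⟨E0, hE0, hE0c⟩ := exists_opt (u + 3) (k + 1)
  rw [blocking_iff] at hE0
  let ψ : (Fin (u + 2) → ZMod q) → Fin (k + 1) → Fin N := fun c =>
    Fin.cons z fun i : Fin k => π (i, ∑ j : Fin (u + 2), ((i : ℕ) : ZMod q) ^ (j : ℕ) * c j)
  let E1 : Finset (Finset (Fin N)) :=
    ((univ : Finset (Fin (u + 2) → ZMod q)) ×ˢ E0).image fun p => p.2.image (ψ p.1)
  let E2 : Finset (Finset (Fin N)) :=
    (univ : Finset (Fin N × ZMod q × (Fin u → Fin N))).image fun p =>
      insert z (insert p.1 (insert (π ((σ p.1).1, p.2.1)) (univ.image p.2.2)))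
  have hc1 : E1.card ≤ q ^ (u + 2) * phi (u + 3) (k + 1) := by
    refine card_image_le.trans ?_
    simp [ZMod.card, hE0c]
  have hc2 : E2.card ≤ N * q * N ^ u := by
    refine card_image_le.trans ?_
    simp [ZMod.card, mul_assoc]
  refine (phi_le_of (E1 ∪ E2) fun χ hχ => ?_).2.trans
    ((card_union_le _ _).trans (Nat.add_le_add hc1 hc2))
  choose s hs using hχ
  let x : Fin (u + 2) → Fin N := fun j => s ((χ z).succAbove j)
  by_cases hinj : Function.Injective fun j => (σ (x j)).1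
  · obtain ⟨c, hc⟩ := interp (fun j => (((σ (x j)).1 : ℕ) : ZMod q)) (fun j => (σ (x j)).2)
      fun i j hij => hu _ _ fun h => hij (hinj h)
    have hψ : ∀ j, ψ c (σ (x j)).1.succ = x j := by
      intro j
      simp only [ψ, Fin.cons_succ]
      rw [hc j]
      exact hπ _
    obtain ⟨e, he, h1⟩ := hE0.2 (χ ∘ ψ c) fun i => by
      by_cases hi : i = χ z
      · exact ⟨0, by simp [ψ, hi]⟩
      · obtain ⟨j, rfl⟩ := Fin.exists_succAbove_eq hi
        exact ⟨(σ (x j)).1.succ, by simp only [Function.comp, hψ]; exact hs _⟩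
    refine ⟨e.image (ψ c), mem_union_left _ (mem_image.mpr ⟨(c, e), by simp [he], rfl⟩),
      card_image_le.trans (hE0.1 e he).le, fun i => ?_⟩
    obtain ⟨y, hy, hy'⟩ := h1 i
    exact ⟨ψ c y, mem_image_of_mem _ hy, hy'⟩
  · simp only [Function.Injective, not_forall] at hinj
    obtain ⟨j1, j2, hj, hne⟩ := hinj
    obtain ⟨j3, rfl⟩ := Fin.exists_succAbove_eq (Ne.symm hne)
    let y : Fin u → Fin N := fun l => x (j1.succAbove (j3.succAbove l))
    have hb : π ((σ (x j1)).1, (σ (x (j1.succAbove j3))).2) = x (j1.succAbove j3) := by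
      rw [hj]; exact hπ _
    refine ⟨_, mem_union_right _ (mem_image_of_mem _
      (mem_univ (x j1, (σ (x (j1.succAbove j3))).2, y))), ?_, fun i => ?_⟩
    · refine (card_insert_le _ _).trans ?_
      refine Nat.add_le_add_right ((card_insert_le _ _).trans ?_) 1
      refine Nat.add_le_add_right ((card_insert_le _ _).trans ?_) 1
      exact Nat.add_le_add_right (card_image_le.trans (by simp)) 1
    · by_cases hi : i = χ z
      · exact ⟨z, mem_insert_self _ _, hi.symm⟩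
      obtain ⟨j, rfl⟩ := Fin.exists_succAbove_eq hi
      refine ⟨x j, mem_insert_of_mem ?_, hs _⟩
      by_cases h1 : j = j1
      · rw [h1]; exact mem_insert_self _ _
      obtain ⟨l, rfl⟩ := Fin.exists_succAbove_eq h1
      refine mem_insert_of_mem ?_
      by_cases h2 : l = j3
      · rw [h2]
        simp only [hb]
        exact mem_insert_self _ _
      obtain ⟨l', rfl⟩ := Fin.exists_succAbove_eq h2
      exact mem_insert_of_mem (mem_image_of_mem y (mem_univ l'))

lemma units (k m : ℕ) (i j : Fin k) (hij : i ≠ j) :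
    IsUnit (((i : ℕ) : ZMod (1 + k.factorial * m)) - ((j : ℕ) : ZMod (1 + k.factorial * m))) := by
  have main : ∀ a b : Fin k, (b : ℕ) < a →
      IsUnit (((a : ℕ) : ZMod (1 + k.factorial * m)) - ((b : ℕ) : ZMod (1 + k.factorial * m))) := by
    intro a b hab
    rw [← Nat.cast_sub hab.le, ZMod.isUnit_iff_coprime]
    have h1 : (a : ℕ) - b ∣ k.factorial := Nat.dvd_factorial (by omega) (by have := a.2; omega)
    obtain ⟨r, hr⟩ := h1
    rw [hr, mul_assoc]
    simp
  rcases lt_or_gt_of_ne (fun h => hij (Fin.ext h)) with h | h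
  · rw [← neg_sub]; exact (main j i h).neg
  · exact main i j h

lemma conv (s : ℕ → ℝ) (h0 : ∀ n, 0 ≤ s n) (h1 : ∀ n, s n ≤ 1)
    (h : ∀ ε > 0, ∀ᶠ n : ℕ in atTop, ∀ᶠ N : ℕ in atTop, s N ≤ s n + ε) :
    ∃ l, Tendsto s atTop (𝓝 l) := by
  have hb1 : IsBoundedUnder (· ≤ ·) atTop s := isBoundedUnder_of ⟨1, h1⟩
  have hb2 : IsBoundedUnder (· ≥ ·) atTop s := isBoundedUnder_of ⟨0, h0⟩
  refine ⟨liminf s atTop, tendsto_of_le_liminf_of_limsup_le le_rfl ?_ hb1 hb2⟩
  refine le_of_forall_pos_le_add fun ε hε => ?_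
  have h2 : ∀ᶠ n : ℕ in atTop, limsup s atTop - ε ≤ s n := by
    filter_upwards [h ε hε] with n hn
    have : limsup s atTop ≤ s n + ε := limsup_le_of_le hb2.isCoboundedUnder_le hn
    linarith
  have := le_liminf_of_le hb1.isCoboundedUnder_ge h2
  linarith

lemma step (u k : ℕ) (hk : 0 < k) (ε : ℝ) (hε : 0 < ε) :
    ∀ᶠ N : ℕ in atTop, (phi (u + 3) N : ℝ) / (N : ℝ) ^ (u + 2)
      ≤ (1 / k) ^ (u + 2) * phi (u + 3) (k + 1) + 1 / k + ε := by
  have hkr : (0 : ℝ) < k := by exact_mod_cast hk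
  have g1 : Tendsto (fun N : ℕ => (1 / (k : ℝ)) + ((1 + k.factorial : ℝ)) / (N : ℝ)) atTop
      (𝓝 (1 / k + 0)) :=
    tendsto_const_nhds.add (tendsto_const_div_atTop_nhds_zero_nat _)
  rw [add_zero] at g1
  have g2 := ((g1.pow (u + 2)).mul_const (phi (u + 3) (k + 1) : ℝ)).add g1
  filter_upwards [g2.eventually (gt_mem_nhds (lt_add_of_pos_right _ hε)), eventually_ge_atTop 1]
    with N hN hN1
  refine le_trans ?_ hN.le
  have hNr : (0 : ℝ) < N := by exact_mod_cast hN1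
  have hf : 0 < k.factorial := Nat.factorial_pos k
  set m : ℕ := N / k / k.factorial + 1 with hm
  set q : ℕ := 1 + k.factorial * m with hq
  have a1 : N / k % k.factorial + k.factorial * (N / k / k.factorial) = N / k :=
    Nat.mod_add_div _ _
  have a2 := Nat.mod_lt (N / k) hf
  have a3 : N % k + k * (N / k) = N := Nat.mod_add_div _ _
  have a4 := Nat.mod_lt N hk
  have b1 : N / k + 1 ≤ q := by
    rw [hq, hm, mul_add]; omega
  have b2 : q ≤ N / k + 1 + k.factorial := by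
    rw [hq, hm, mul_add]; omega
  have b3 : N ≤ k * q := by
    have := Nat.mul_le_mul_left k b1
    rw [mul_add] at this
    omega
  have h1 := ineq u k q N (by omega) hN1 b3 (units k m)
  have h2 : (phi (u + 3) N : ℝ) ≤ (q : ℝ) ^ (u + 2) * phi (u + 3) (k + 1) + N * q * N ^ u := by
    exact_mod_cast h1
  have h3 : (q : ℝ) / N ≤ 1 / k + (1 + k.factorial : ℝ) / N := by
    have c1 : (q : ℝ) ≤ ((N / k : ℕ) : ℝ) + 1 + k.factorial := by exact_mod_cast b2
    have c2 : ((N / k : ℕ) : ℝ) ≤ (N : ℝ) / k := Nat.cast_div_le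
    rw [div_le_iff₀ hNr]
    have : (1 / (k : ℝ) + (1 + k.factorial : ℝ) / N) * N = N / k + (1 + k.factorial) := by
      field_simp
    rw [this]; linarith
  have h4 : (phi (u + 3) N : ℝ) / (N : ℝ) ^ (u + 2)
      ≤ ((q : ℝ) / N) ^ (u + 2) * phi (u + 3) (k + 1) + q / N := by
    rw [div_le_iff₀ (by positivity)]
    refine h2.trans (le_of_eq ?_)
    rw [div_pow]
    field_simp
    ring
  refine h4.trans (add_le_add ?_ h3)
  exact mul_le_mul_of_nonneg_right (pow_le_pow_left₀ (by positivity) h3 _) (by positivity)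

theorem result (d : ℕ) (hd : 4 ≤ d) :
    ∃ c : ℝ, Tendsto (fun n : ℕ => (phi d n : ℝ) / (n : ℝ) ^ (d - 1)) atTop (𝓝 c) := by
  obtain ⟨u, rfl⟩ : ∃ u, d = u + 3 := ⟨d - 3, by omega⟩
  have hle : ∀ n : ℕ, (phi (u + 3) n : ℝ) / (n : ℝ) ^ (u + 2) ≤ 1 := by
    intro n
    rcases Nat.eq_zero_or_pos n with rfl | hn
    · simp
    · refine div_le_one_of_le₀ ?_ (by positivity)
      exact_mod_cast phi_le_pow (u + 2) n hn
  refine conv (fun n : ℕ => (phi (u + 3) n : ℝ) / (n : ℝ) ^ (u + 2))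
    (fun n => by positivity) hle fun ε hε => ?_
  have g0 : Tendsto (fun k : ℕ => (1 : ℝ) / (k : ℝ)) atTop (𝓝 0) :=
    tendsto_const_div_atTop_nhds_zero_nat _
  have g1 : Tendsto (fun k : ℕ => (1 + (1 : ℝ) / (k : ℝ)) ^ (u + 2) - 1 + 1 / k) atTop
      (𝓝 ((1 + 0) ^ (u + 2) - 1 + 0)) :=
    (((tendsto_const_nhds.add g0).pow _).sub_const 1).add g0
  simp only [add_zero, one_pow, sub_self] at g1
  have g2 : ∀ᶠ k : ℕ in atTop, ∀ᶠ N : ℕ in atTop, (phi (u + 3) N : ℝ) / (N : ℝ) ^ (u + 2)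
      ≤ (phi (u + 3) (k + 1) : ℝ) / ((k + 1 : ℕ) : ℝ) ^ (u + 2) + ε := by
    filter_upwards [g1.eventually (gt_mem_nhds (half_pos hε)), eventually_ge_atTop 1]
      with k hk hk1
    filter_upwards [step u k hk1 (ε / 2) (half_pos hε)] with N hN
    refine hN.trans ?_
    have hkr : (0 : ℝ) < k := by exact_mod_cast hk1
    have e : (1 / (k : ℝ)) ^ (u + 2) * phi (u + 3) (k + 1)
        = (1 + (1 : ℝ) / k) ^ (u + 2)
          * ((phi (u + 3) (k + 1) : ℝ) / ((k + 1 : ℕ) : ℝ) ^ (u + 2)) := by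
      have : (1 + (1 : ℝ) / k) = (1 / k) * ((k + 1 : ℕ) : ℝ) := by
        push_cast; field_simp
      rw [this, mul_pow]
      field_simp
    rw [e]
    have h1 := hle (k + 1)
    have h2 : (1 : ℝ) ≤ (1 + (1 : ℝ) / k) ^ (u + 2) :=
      one_le_pow₀ (by have : (0 : ℝ) ≤ 1 / k := by positivity
                      linarith)
    nlinarith
  obtain ⟨K, hK⟩ := eventually_atTop.mp g2
  refine eventually_atTop.mpr ⟨K + 1, fun n hn => ?_⟩
  obtain ⟨k, rfl⟩ : ∃ k, n = k + 1 := ⟨n - 1, by omega⟩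
  exact hK k (by omega)

end Pool.Agent.Results.MP_d4e795_co.Full
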